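import Pool.Agent.N856.JM.Key
import Pool.Agent.N916.AM.Low

/-!
# JM: the final asymptotics (after `Pool/Agent/N916/AM/Asy.lean`, `Low.lean` of helper916)
-/

set_option autoImplicit false

open scoped Classical
open Finset Filter

namespace Pool.Agent.N856.JM

open Pool.Agent.Y703.CQ (nr sg)
open Pool.Agent.N973.ND (uu)
open Pool.Agent.N916.GB (Po SA ps HB S_EQ S_BIL CntP S_ME8 S_HAL S_FE1)
open Pool.Agent.Y703.CX (sm la jj XX eL zz kk S_SIE eL_tendsto logX_eq HH NN ev_eL one_le_exp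
  HH_ge HH_le HH_pos kk_ge kk_le X_pos one_add_log lin_le kap zz_ge zz_pos kap_nonneg kap_pow kap_le)
open Pool.Agent.N218.GB.Asy (Sml sml_of sml_add sml_eps sml_many sml_cut sml_coll log_three
  SA_card cmp)
open Pool.Agent.N916.AM

/-- the sets outside the regular part -/
theorem out_sub {M : ℕ} (hM : 8 ∣ M) (hM0 : 0 < M) (K : Finset ℕ) (X z H k V : ℕ) :
    SS M K X \ ((RR M K X z H k V).filter fun S => Nd M (sm z S) (la z S)) ⊆
      ((((((SA X).filter fun S => k < S.card) ∪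
      ((SA X).filter fun S => S.card ≤ k ∧
        X < (∏ p ∈ sm z S, p) * ∏ p ∈ la z S, XX H (jj H p))) ∪
      ((SA X).filter fun S => ¬ Set.InjOn (jj H) (la z S : Set ℕ))) ∪
      (((range M).filter fun a => a.Coprime M).biUnion fun a =>
        ((SA X).filter fun S => ((la z S).filter fun p => p % M = a).card <
        V * ((sm z S).card + 1)))) ∪
      ((SA X).filter fun S => S.card ≤ k ∧ ¬ N8 (oM M) (sm z S) (la z S))) ∪
      (((SA X).filter fun S => ∀ p ∈ la z S, p % 8 ≠ 3 % 8) ∪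
      ((SA X).filter fun S => ∀ p ∈ la z S, p % 8 ≠ 5 % 8)) := by
  intro S hS
  rw [Finset.mem_sdiff, Finset.mem_filter] at hS
  obtain ⟨h1', h2⟩ := hS
  have h1 := SS_sub M K X h1'
  simp only [mem_union, mem_filter, mem_biUnion, mem_range]
  by_contra hc
  push Not at hc
  obtain ⟨⟨⟨⟨⟨c1, c2⟩, c3⟩, c4⟩, c5⟩, c6, c7⟩ := hc
  have d1 : S.card ≤ k := c1 h1
  have d2 := c2 h1 d1
  have d3 := c3 h1
  have d4 : Rich M V (sm z S) (la z S) := by
    intro a ha hac
    exact c4 a ⟨ha, hac⟩ h1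
  have d5 := c5 h1 d1
  obtain ⟨p3, hp3, hp3'⟩ := c6 h1
  obtain ⟨p5, hp5, hp5'⟩ := c7 h1
  have hS : ∀ p ∈ S, Po p := by
    unfold SA at h1
    exact (mem_filter.1 h1).2.1
  have d6 : Nd M (sm z S) (la z S) := by
    refine ⟨?_, d5⟩
    apply nd_of8 hM hM0 _ _ d5
    · exact ⟨p3, hp3, by simpa using hp3'⟩
    · exact ⟨p5, hp5, by simpa using hp5'⟩
    · exact fun p hp => hS p (mem_filter.1 hp).1
    · exact fun p hp => hS p (mem_filter.1 hp).1
  apply h2
  refine ⟨?_, d6⟩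
  unfold RR
  rw [mem_filter]
  exact ⟨h1', d3, d1, d2, d4⟩

/-- **The proportion of the good sets.** -/
theorem t_DQ {M : ℕ} (hM : 8 ∣ M) (hM0 : 0 < M) {K : Finset ℕ} {G : Finset ℕ → Prop} {c : ℝ}
    (hc0 : 0 ≤ c) (hc1 : c ≤ 1) (hL : LAH M K G c) (ε : ℝ) (hε : 0 < ε) :
    ∃ X₀ : ℕ, ∀ X : ℕ, X₀ ≤ X →
      |(((SS M K X).filter G).card : ℝ) - c * ((SS M K X).card : ℝ)| ≤ ε * X := by
  obtain ⟨V, C, hV1, hC1, hkey⟩ := KEY.key Pool.Agent.N19.GB.t_BIL Pool.Agent.N19.GB.t_EQ hM hM0 hL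
    (ε / 2) (by linarith)
  have hS : S_SIE := Pool.Agent.Y488.CX.t_SIE
  have hMe : S_ME8 := Pool.Agent.N19.GB.t_ME8
  have hH : S_HAL := Pool.Agent.N148.GB.t_HAL
  have hC : CntP := Pool.Agent.N502.GB.CNT.t_CNT
  have hF1 : S_FE1 := Pool.Agent.N502.GB.FE1.t_FE1
  have s1 := sml_many hC
  have s2 := sml_cut hC
  have s3 := sml_coll hC
  have s4 := sml_sum ((range M).filter fun a => a.Coprime M) (fun a X =>
    (((SA X).filter fun S => ((la (zz X) S).filter fun p => p % M = a).card <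
      V * ((sm (zz X) S).card + 1)).card : ℝ)) (fun a ha => by
        rw [mem_filter, mem_range] at ha
        exact sml_eps (Few.few hS hM0 ha.1 ha.2 V))
  have s5 := sml_eps (BAD.t_BAD hS hH hMe (B₀ := oM M) oM_po)
  have s6 := sml_eps (hF1 hS hMe 3 (by norm_num))
  have s7 := sml_eps (hF1 hS hMe 5 (by norm_num))
  have s8 := sml_main hC1 M
  have stot := sml_add (sml_add (sml_add (sml_add (sml_add (sml_add s1 s2) s3) s4) s5)
    (sml_add s6 s7)) s8
  have hev := stot (ε / 2) (by linarith)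
  have hzM : ∀ᶠ X : ℕ in atTop, M ≤ zz X := by
    filter_upwards [ev_eL (M + 1)] with X hX
    have hM' : (0 : ℝ) ≤ M := Nat.cast_nonneg _
    have h1 : (1 : ℝ) ≤ eL X := by linarith
    unfold zz
    apply Nat.le_floor
    have h3 : eL X ≤ (eL X) ^ 3 := le_self_pow₀ h1 (by norm_num)
    have h4 := Real.add_one_le_exp ((eL X) ^ 3)
    linarith
  have hev2 : ∀ᶠ X : ℕ in atTop, |(((SS M K X).filter G).card : ℝ) -
      c * ((SS M K X).card : ℝ)| ≤ ε * X := by
    filter_upwards [hev, ev_eL 1, hzM] with X hX hl hzX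
    have hl0 : 0 < eL X := by linarith
    have hXp := X_pos hl0
    have hNN : (HH X : ℝ) * Real.log X < NN X := by
      unfold NN
      push_cast
      exact Nat.lt_floor_add_one _
    have hmain := hkey X (zz X) (HH X) (kk X) (NN X) (kap C X) hXp (HH_pos hl0)
      (zz_pos hl) hzX (kap_nonneg hC1 X) (kap_pow hC1 hl) hNN
    set T := (RR M K X (zz X) (HH X) (kk X) V).filter
      fun S => Nd M (sm (zz X) S) (la (zz X) S) with hT
    have hTG : (RR M K X (zz X) (HH X) (kk X) V).filter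
        (fun S => Nd M (sm (zz X) S) (la (zz X) S) ∧ G S) = T.filter G := by
      rw [hT, filter_filter]
    rw [hTG] at hmain
    have hTS : T ⊆ SS M K X := (filter_subset _ _).trans (filter_subset _ _)
    have hRS : ((RR M K X (zz X) (HH X) (kk X) V).card : ℝ) ≤ X := by
      exact_mod_cast (card_le_card ((filter_subset _ _).trans (SS_sub M K X))).trans (SA_card X)
    have hcmp := cmp G T (SS M K X) hTS c hc0 hc1
    have hout : ((SS M K X \ T).card : ℝ) ≤
        ((((((SA X).filter fun S => kk X < S.card).card : ℝ) +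
        (((SA X).filter fun S => S.card ≤ kk X ∧
          X < (∏ p ∈ sm (zz X) S, p) * ∏ p ∈ la (zz X) S, XX (HH X) (jj (HH X) p)).card : ℝ)) +
        (((SA X).filter fun S => ¬ Set.InjOn (jj (HH X)) (la (zz X) S : Set ℕ)).card : ℝ)) +
        (∑ a ∈ (range M).filter (fun a => a.Coprime M),
          (((SA X).filter fun S => ((la (zz X) S).filter fun p => p % M = a).card <
          V * ((sm (zz X) S).card + 1)).card : ℝ)) +
        (((SA X).filter fun S => S.card ≤ kk X ∧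
          ¬ N8 (oM M) (sm (zz X) S) (la (zz X) S)).card : ℝ)) +
        ((((SA X).filter fun S => ∀ p ∈ la (zz X) S, p % 8 ≠ 3 % 8).card : ℝ) +
        (((SA X).filter fun S => ∀ p ∈ la (zz X) S, p % 8 ≠ 5 % 8).card : ℝ)) := by
      have g := card_le_card (out_sub hM hM0 K X (zz X) (HH X) (kk X) V)
      rw [← hT] at g
      have gb : (((range M).filter fun a => a.Coprime M).biUnion fun a =>
          ((SA X).filter fun S => ((la (zz X) S).filter fun p => p % M = a).card <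
          V * ((sm (zz X) S).card + 1))).card ≤ ∑ a ∈ (range M).filter (fun a => a.Coprime M),
          ((SA X).filter fun S => ((la (zz X) S).filter fun p => p % M = a).card <
          V * ((sm (zz X) S).card + 1)).card := Finset.card_biUnion_le
      have g2 := (g.trans (card_union_le _ _)).trans (Nat.add_le_add ((card_union_le _ _).trans
        (Nat.add_le_add_right ((card_union_le _ _).trans
        (Nat.add_le_add ((card_union_le _ _).trans
        (Nat.add_le_add_right (card_union_le _ _) _)) gb)) _)) (card_union_le _ _))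
      exact_mod_cast g2
    have g1 : ε / 2 * ((RR M K X (zz X) (HH X) (kk X) V).card : ℝ) ≤ ε / 2 * X :=
      mul_le_mul_of_nonneg_left hRS (by positivity)
    linarith
  obtain ⟨X₀, h0⟩ := eventually_atTop.1 hev2
  exact ⟨X₀, fun X hX => h0 X hX⟩

/-- the count in a union of classes -/
theorem dq {M : ℕ} (hM : 8 ∣ M) (hM0 : 0 < M) {K : Finset ℕ} {G : Finset ℕ → Prop} {c : ℝ}
    (hc0 : 0 ≤ c) (hc1 : c ≤ 1) (hL : LAH M K G c) (hK : ∀ a ∈ K, a % 2 = 1) :
    ∀ ε : ℝ, 0 < ε → ∃ X₀ : ℕ, ∀ X : ℕ, X₀ ≤ X →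
      |(((Icc 1 X).filter fun n => Squarefree n ∧ n % M ∈ K ∧ G n.primeFactors).card : ℝ) -
        c * (((Icc 1 X).filter fun n => Squarefree n ∧ n % M ∈ K).card : ℝ)| ≤ ε * X := by
  have hM2 : 2 ∣ M := Dvd.dvd.trans (by norm_num) hM
  intro ε hε
  obtain ⟨X₀, hX₀⟩ := t_DQ hM hM0 hc0 hc1 hL ε hε
  refine ⟨X₀, fun X hX => ?_⟩
  have h1 := hX₀ X hX
  have e1 := card_eq hM2 hK X G
  have e2 := card_eq hM2 hK X (fun _ => True)
  rw [Finset.filter_true] at e2
  simp only [and_true] at e2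
  rw [← e1, ← e2] at h1
  exact h1

/-- **the natural density in a union of classes modulo `M`** -/
theorem dens {M : ℕ} (hM : 8 ∣ M) (hM0 : 0 < M) {K : Finset ℕ} {G : Finset ℕ → Prop} {c : ℝ}
    (hc0 : 0 ≤ c) (hc1 : c ≤ 1) (hL : LAH M K G c) (hK : ∀ a ∈ K, a % 2 = 1) {n₀ : ℕ}
    (hn : Squarefree n₀) (hn₀ : n₀ % M ∈ K) : Tendsto
  (fun X : ℕ => (((Icc 1 X).filter fun n => Squarefree n ∧ n % M ∈ K ∧
      G n.primeFactors).card : ℝ) /
    (((Icc 1 X).filter fun n => Squarefree n ∧ n % M ∈ K).card : ℝ)) atTop (nhds c) := by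
  have hM2 : 2 ∣ M := Dvd.dvd.trans (by norm_num) hM
  obtain ⟨c₁, X₁, hc₁, hlow⟩ := low hM0 hM2 hn
  refine ratio hc₁ (fun X hX => (hlow X hX).trans ?_) (dq hM hM0 hc0 hc1 hL hK)
  refine Nat.cast_le.2 (card_le_card fun n hn => ?_)
  rw [mem_filter] at hn ⊢
  refine ⟨hn.1, hn.2.1, ?_⟩
  rw [hn.2.2]
  exact hn₀

end Pool.Agent.N856.JM
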