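import Pool.Agent.N856.JM.Stm

/-!
# JM: the count in a box (after `Pool/Agent/N916/AM/Box.lean` of helper916)
-/

set_option autoImplicit false
set_option linter.unusedSectionVars false
set_option linter.unusedVariables false

open scoped Classical

namespace Pool.Agent.N856.JM

open Finset
open Pool.Agent.Y703.CQ (nr sg)
open Pool.Agent.N973.ND (uu nr_rec nr_self)
open Pool.Agent.N916.GB (Po SA ps HB S_EQ S_BIL)
open Pool.Agent.N916.AM (Rich N8 oM Bs HB_sub nr_Bs uu_mod)

theorem nd_of {M : ℕ} {S₀ : Finset ℕ} {ι : Type} [Fintype ι] {p q : ι → ℕ} (hM : 8 ∣ M)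
    (hp : ∀ i, Po (p i) ∧ (p i).Coprime M) (hq : ∀ i, Po (q i) ∧ (q i).Coprime M)
    (h : ∀ i, p i % M = q i % M ∧ ∀ v ∈ S₀, nr (p i) v = nr (q i) v)
    (hN : Nd M S₀ (univ.image p)) : Nd M S₀ (univ.image q) := by
  refine ⟨Pool.Agent.N916.AM.nd_of hM hp hq h hN.1, ?_⟩
  intro w hw
  obtain ⟨x, hx, hx8, hx2⟩ := hN.2 w hw
  obtain ⟨i, -, rfl⟩ := mem_image.1 hx
  refine ⟨q i, mem_image_of_mem _ (mem_univ _), ?_, ?_⟩
  · rw [← Nat.mod_mod_of_dvd (q i) hM, ← (h i).1, Nat.mod_mod_of_dvd (p i) hM]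
    exact hx8
  · have e1 : ∑ v ∈ S₀ ∪ oM M, w v * nr (q i) v = ∑ v ∈ S₀ ∪ oM M, w v * nr (p i) v := by
      refine sum_congr rfl fun v hv => ?_
      rw [nr_Bs hM (hp i).1 (hq i).1 (hp i).2 (hq i).2 (h i).1 (h i).2 v ?_]
      unfold Pool.Agent.N916.AM.Bs
      rw [mem_union] at hv ⊢
      exact hv.imp id fun h => (mem_erase.1 h).2
    rw [e1]
    exact hx2

/-- the statement of the count in a box -/
def BoxS (M : ℕ) (K : Finset ℕ) (G : Finset ℕ → Prop) (c ε : ℝ) (V : ℕ) : Prop :=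
  ∀ (ι : Type) [Fintype ι] [LinearOrder ι] (τ : ι → ℕ)
    (C : ι → Finset ℕ) (X : ι → ℕ) (κ : ℝ) (S₀ : Finset ℕ), 0 ≤ κ → (∀ i, (C i).card ≤ X i) →
    HB C X κ → (∀ v ∈ S₀, Po v) →
    (∀ i, ∀ p ∈ C i, Po p ∧ p ∉ S₀ ∧ p.Coprime M ∧ p % M = τ i) →
    (∀ i l, i ≠ l → Disjoint (C i) (C l)) → ((∏ v ∈ S₀, v) * ∏ i, τ i) % M ∈ K →
    (∀ a < M, a.Coprime M → V * (S₀.card + 1) ≤ (univ.filter fun i => τ i = a).card) →
    |(((Fintype.piFinset C).filter fun p => Nd M S₀ (univ.image p) ∧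
          G (S₀ ∪ univ.image p)).card : ℝ) -
        c * (((Fintype.piFinset C).filter fun p => Nd M S₀ (univ.image p)).card : ℝ)| ≤
      ε * (((Fintype.piFinset C).filter fun p => Nd M S₀ (univ.image p)).card : ℝ) +
      2 ^ ((2 * S₀.card + 1) * Fintype.card ι + (ps ι).card) * (κ * ∏ j, (X j : ℝ))

/-- **The count in a box.** -/
theorem box (hEQ : S_EQ) {M : ℕ} (hM : 8 ∣ M) {K : Finset ℕ} {G : Finset ℕ → Prop} {c ε : ℝ}
    {V : ℕ} (hL : LAV M K G c ε V) : BoxS M K G c ε V := by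
  intro ι _ _ τ C X κ S₀ hκ hCX hHB hS₀ hC hdis hK hR
  set R : ℝ := 2 ^ (ps ι).card * (κ * ∏ j, (X j : ℝ)) with hRd
  have hR0 : 0 ≤ R := mul_nonneg (by positivity)
    (mul_nonneg hκ (Finset.prod_nonneg fun j _ => by positivity))
  -- facts on tuples
  have hinj : ∀ p ∈ Fintype.piFinset C, Function.Injective p := by
    intro p hp i j hij
    rw [Fintype.mem_piFinset] at hp
    by_contra hne
    have h1 := Finset.disjoint_left.1 (hdis i j hne) (hp i)
    rw [hij] at h1
    exact h1 (hp j)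
  have hfa : ∀ p ∈ Fintype.piFinset C, ∀ i, Po (p i) ∧ p i ∉ S₀ ∧ (p i).Coprime M ∧
      p i % M = τ i := by
    intro p hp i
    rw [Fintype.mem_piFinset] at hp
    exact hC i _ (hp i)
  -- the labels
  set lb : ℕ → (S₀ → ZMod 2) := fun x v => nr x v with hlb
  have hlb' : ∀ x y : ℕ, lb x = lb y → ∀ v ∈ S₀, nr x v = nr y v := by
    intro x y h v hv
    exact congrFun h ⟨v, hv⟩
  -- the part with given labels
  have h1 : ∀ β : ι → (S₀ → ZMod 2),
      |(((Fintype.piFinset C).filter fun p => (fun i => lb (p i)) = β ∧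
          (Nd M S₀ (univ.image p) ∧ G (S₀ ∪ univ.image p))).card : ℝ) -
        c * (((Fintype.piFinset C).filter fun p => (fun i => lb (p i)) = β ∧
          Nd M S₀ (univ.image p)).card : ℝ)| ≤
      ε * (((Fintype.piFinset C).filter fun p => (fun i => lb (p i)) = β ∧
          Nd M S₀ (univ.image p)).card : ℝ) + R := by
    intro β
    by_cases hemp : ((Fintype.piFinset C).filter fun p => (fun i => lb (p i)) = β ∧
          Nd M S₀ (univ.image p)) = ∅
    · have he2 : ((Fintype.piFinset C).filter fun p => (fun i => lb (p i)) = β ∧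
          (Nd M S₀ (univ.image p) ∧ G (S₀ ∪ univ.image p))) = ∅ := by
        rw [Finset.filter_eq_empty_iff] at hemp ⊢
        intro p hp h
        exact hemp hp ⟨h.1, h.2.1⟩
      rw [he2, hemp]
      simpa using hR0
    obtain ⟨p₀, hp₀⟩ := Finset.nonempty_iff_ne_empty.2 hemp
    rw [Finset.mem_filter] at hp₀
    obtain ⟨hp₀, hp₀β, hp₀N⟩ := hp₀
    set C' : ι → Finset ℕ := fun i => (C i).filter fun q => lb q = β i with hC'
    have hpi : (Fintype.piFinset C).filter (fun p => (fun i => lb (p i)) = β) =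
        Fintype.piFinset C' := by
      ext p
      simp only [Finset.mem_filter, Fintype.mem_piFinset, hC']
      constructor
      · rintro ⟨h2, h3⟩ i
        exact ⟨h2 i, congrFun h3 i⟩
      · intro h2
        exact ⟨fun i => (h2 i).1, funext fun i => (h2 i).2⟩
    have hsame : ∀ p ∈ Fintype.piFinset C, (fun i => lb (p i)) = β →
        ∀ i, p i % M = p₀ i % M ∧ ∀ v ∈ S₀, nr (p i) v = nr (p₀ i) v := by
      intro p hp hpβ i
      refine ⟨by rw [(hfa p hp i).2.2.2, (hfa p₀ hp₀ i).2.2.2], ?_⟩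
      apply hlb'
      exact (congrFun hpβ i).trans (congrFun hp₀β i).symm
    have hNd : ∀ p ∈ Fintype.piFinset C, (fun i => lb (p i)) = β →
        Nd M S₀ (univ.image p) := by
      intro p hp hpβ
      refine nd_of hM (fun i => ⟨(hfa p₀ hp₀ i).1, (hfa p₀ hp₀ i).2.2.1⟩)
        (fun i => ⟨(hfa p hp i).1, (hfa p hp i).2.2.1⟩) (fun i => ?_) hp₀N
      obtain ⟨a, b⟩ := hsame p hp hpβ i
      exact ⟨a.symm, fun v hv => (b v hv).symm⟩
    have hmod : ∀ i, p₀ i % M = τ i := fun i => (hfa p₀ hp₀ i).2.2.2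
    have hK' : ((∏ v ∈ S₀, v) * ∏ i, p₀ i) % M ∈ K := by
      have e : ((∏ v ∈ S₀, v) * ∏ i, p₀ i) % M = ((∏ v ∈ S₀, v) * ∏ i, τ i) % M := by
        have e2 : (∏ i, τ i) = ∏ i, p₀ i % M := prod_congr rfl fun i _ => (hmod i).symm
        rw [Nat.mul_mod, e2, Nat.mul_mod (∏ v ∈ S₀, v) (∏ i, p₀ i % M), ← Finset.prod_nat_mod]
      rw [e]
      exact hK
    have hRich : Rich M V S₀ (univ.image p₀) := by
      intro a ha hac
      refine (hR a ha hac).trans (le_of_eq ?_)
      rw [Finset.filter_image, Finset.card_image_of_injective _ (hinj p₀ hp₀)]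
      congr 1
      refine Finset.filter_congr fun i _ => ?_
      rw [hmod i]
    obtain ⟨Q, hQ1, hQ2⟩ := hL ι S₀ p₀ hS₀
      (fun i => ⟨(hfa p₀ hp₀ i).1, (hfa p₀ hp₀ i).2.1, (hfa p₀ hp₀ i).2.2.1⟩)
      (hinj p₀ hp₀) hK' hp₀N hRich
    have h3 := hEQ ι C' X κ hκ
      (fun i => (Finset.card_le_card (Finset.filter_subset _ _)).trans (hCX i))
      (HB_sub hHB fun i q => lb q = β i) Q
    have h4 : ((Fintype.piFinset C).filter fun p => (fun i => lb (p i)) = β ∧
        (Nd M S₀ (univ.image p) ∧ G (S₀ ∪ univ.image p))) = ((Fintype.piFinset C').filter fun p =>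
          Q fun e => nr (p e.1.1) (p e.1.2)) := by
      rw [← hpi, Finset.filter_filter]
      refine Finset.filter_congr fun p hp => ?_
      refine and_congr_right fun hl => ?_
      have a1 := hQ1 p (hinj p hp) (fun i => ⟨(hfa p hp i).1, (hfa p hp i).2.1,
        (hsame p hp hl i).1, (hsame p hp hl i).2⟩)
      rw [← a1]
      exact ⟨fun h => h.2, fun h => ⟨hNd p hp hl, h⟩⟩
    have h4' : ((Fintype.piFinset C).filter fun p => (fun i => lb (p i)) = β ∧
        Nd M S₀ (univ.image p)) = Fintype.piFinset C' := by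
      rw [← hpi]
      refine Finset.filter_congr fun p hp => ?_
      exact ⟨fun h => h.1, fun h => ⟨h, hNd p hp h⟩⟩
    have h5 : (((Fintype.piFinset C').card : ℕ) : ℝ) = ∏ j, ((C' j).card : ℝ) := by
      rw [Fintype.card_piFinset]
      push_cast
      rfl
    rw [h4, h4', h5]
    set n : ℝ := (((Fintype.piFinset C').filter fun p =>
          Q fun e => nr (p e.1.1) (p e.1.2)).card : ℝ) with hn
    set q : ℝ := ((univ.filter Q).card : ℝ) / 2 ^ (ps ι).card with hq
    set P : ℝ := ∏ j, ((C' j).card : ℝ) with hP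
    have hP0 : 0 ≤ P := Finset.prod_nonneg fun j _ => by positivity
    have h6 : |n - c * P| ≤ |n - q * P| + |q - c| * P := by
      have h7 : n - c * P = (n - q * P) + (q - c) * P := by ring
      have h8 : |(q - c) * P| = |q - c| * P := by rw [abs_mul, abs_of_nonneg hP0]
      rw [h7, ← h8]
      exact abs_add_le _ _
    have h7 : |q - c| * P ≤ ε * P := mul_le_mul_of_nonneg_right hQ2 hP0
    have h8 : |n - q * P| ≤ R := h3
    linarith
  -- sum over the labels
  have hfib : ∀ (T : (ι → ℕ) → Prop) [DecidablePred T],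
      (((Fintype.piFinset C).filter fun p => T p).card : ℝ) =
      ∑ β : ι → (S₀ → ZMod 2), (((Fintype.piFinset C).filter fun p =>
        (fun i => lb (p i)) = β ∧ T p).card : ℝ) := by
    intro T _
    rw [Finset.card_eq_sum_card_fiberwise (f := fun (p : ι → ℕ) (i : ι) => lb (p i))
      (t := univ) (fun p hp => Finset.mem_coe.2 (Finset.mem_univ _))]
    push_cast
    refine Finset.sum_congr rfl fun β hβ => ?_
    congr 2
    ext p
    simp only [Finset.mem_filter]
    tauto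
  have hf1 := hfib fun p => Nd M S₀ (univ.image p) ∧ G (S₀ ∪ univ.image p)
  have hf2 := hfib fun p => Nd M S₀ (univ.image p)
  rw [hf1, hf2, Finset.mul_sum, ← Finset.sum_sub_distrib]
  refine (Finset.abs_sum_le_sum_abs _ _).trans ?_
  refine (Finset.sum_le_sum fun β _ => h1 β).trans ?_
  rw [Finset.sum_add_distrib, ← Finset.mul_sum, Finset.sum_const, nsmul_eq_mul]
  have h5 : (((univ : Finset (ι → (S₀ → ZMod 2))).card : ℕ) : ℝ) ≤
      2 ^ ((2 * S₀.card + 1) * Fintype.card ι) := by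
    have h6 : (univ : Finset (ι → (S₀ → ZMod 2))).card = 2 ^ (S₀.card * Fintype.card ι) := by
      rw [Finset.card_univ, Fintype.card_fun, Fintype.card_fun, ZMod.card,
        Fintype.card_coe, ← pow_mul]
    rw [h6]
    push_cast
    apply pow_le_pow_right₀ (by norm_num)
    exact Nat.mul_le_mul_right _ (by omega)
  have h6 := mul_le_mul_of_nonneg_right h5 hR0
  rw [pow_add, mul_assoc]
  linarith

end Pool.Agent.N856.JM
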