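import Pool.Agent.N856.JM.Asy
import Pool.Agent.N856.JL.LA
import Pool.Agent.N856.JL.FB
import Pool.Agent.N588.JL.BOX

/-!
# JM: the joint criterion satisfies the hypothesis of the machine
-/

set_option autoImplicit false
set_option linter.unusedVariables false

open scoped Classical

namespace Pool.Agent.N856.JM

open Finset
open Pool.Agent.Y703.CQ (nr sg)
open Pool.Agent.N973.ND (uu)
open Pool.Agent.N916.GB (Po Gd ps eta nr_recip sum_uu)
open Pool.Agent.N856.JA.QK (prs c2 ext)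
open Pool.Agent.N856.JA.QJ (La)
open Pool.Agent.N856.JL (Fx ZZ GdJ GdR HypR LARJ)
open Pool.Agent.N588.JL (WW sumW' sub_T sub_ZZ la_add gdJ_iff ez0 ez0_coe fcc)
open Pool.Agent.N916.AM (Rich N8 oM oM_po Bs nr_Bs uu_mod)

variable {M : ℕ}

lemma cop_of {a : ℕ} (h : a.Coprime (8 * ∏ u ∈ oM M, u)) (hM0 : 0 < M) : a.Coprime M := by
  refine Nat.coprime_of_dvd' fun p hp hpa hpM => ?_
  have h1 : p ∣ 8 * ∏ u ∈ oM M, u := by
    by_cases hp2 : p = 2
    · rw [hp2]
      exact Dvd.dvd.mul_right (by norm_num) _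
    · refine Dvd.dvd.mul_left (dvd_prod_of_mem _ ?_) 8
      unfold Pool.Agent.N916.AM.oM
      rw [mem_erase, Nat.mem_primeFactors]
      exact ⟨hp2, hp, hpM, hM0.ne'⟩
  have := Nat.dvd_gcd hpa h1
  rwa [h] at this

/-- residue classes modulo `M` with given symbols -/
lemma cls (hM : 8 ∣ M) (hM0 : 0 < M) (r : ℕ → ZMod 2) (b : ZMod 2) :
    ∃ a, a < M ∧ a.Coprime M ∧ ∀ x, x % M = a → (∀ u ∈ oM M, nr u x = r u) ∧ uu x = b := by
  have hex : ∀ u ∈ oM M, ∃ g : ℕ, g.Coprime u ∧ nr u g = r u := by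
    intro u hu
    by_cases h : r u = 0
    · exact ⟨1, Nat.coprime_one_left u, by rw [Pool.Agent.N856.JL.FB.nr_one, h]⟩
    · obtain ⟨g, h1, h2⟩ := Pool.Agent.N856.JL.FB.exists_nr (oM_po u hu)
      refine ⟨g, h1, h2.trans ?_⟩
      have : ∀ x : ZMod 2, x ≠ 0 → (1 : ZMod 2) = x := by decide
      exact this _ h
  choose! g hg1 hg2 using hex
  obtain ⟨a, h1, h2, h3⟩ := Pool.Agent.N856.JL.FB.crt (oM M) oM_po g hg1 (if b = 0 then 1 else 3)
    (by split_ifs <;> rfl)
  refine ⟨a % M, Nat.mod_lt _ hM0, ?_, fun x hx => ⟨fun u hu => ?_, ?_⟩⟩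
  · have := cop_of h1 hM0
    rw [Nat.coprime_comm, Nat.Coprime, Nat.gcd_rec, ] at this
    rw [Nat.Coprime]
    exact this
  · have huM : u ∣ M := by
      unfold Pool.Agent.N916.AM.oM at hu
      rw [mem_erase, Nat.mem_primeFactors] at hu
      exact hu.2.2.1
    rw [← hg2 u hu]
    refine Pool.Agent.N856.JL.FB.nr_congr ?_
    rw [← Nat.mod_mod_of_dvd x huM, hx, Nat.mod_mod_of_dvd a huM, h3 u hu]
  · have h8 : x % 8 = a % 8 := by
      rw [← Nat.mod_mod_of_dvd x hM, hx, Nat.mod_mod_of_dvd a hM]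
    have hb : ∀ b : ZMod 2, b = 0 ∨ b = 1 := by decide
    unfold Pool.Agent.N973.ND.uu
    rcases hb b with rfl | rfl
    · rw [if_pos rfl] at h2
      rw [if_neg (by omega)]
    · rw [if_neg (by decide)] at h2
      rw [if_pos (by omega)]

theorem lah {I : Type} [Fintype I] {F : I → Finset ℕ} (hF : Fx F) (hM : 8 ∣ M) (hM0 : 0 < M)
    (hFM : ∀ i, ∀ u ∈ F i, u ∣ M) {K : Finset ℕ}
    (hK1 : ∀ a ∈ K, ∀ i, (a * ∏ u ∈ F i, u) % 4 = 3) (hK2 : ∀ a ∈ K, ∀ i, ∀ u ∈ F i, ¬ u ∣ a) :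
    LAH M K (GdJ F) (eta ^ Fintype.card I) := by
  intro ε hε
  obtain ⟨K0, V0, hL⟩ := Pool.Agent.N856.JL.LA.t_LAR I ε hε
  obtain ⟨z, hz⟩ : ∃ z, z = (ZZ F).card := ⟨_, rfl⟩
  refine ⟨K0 * (z + 1) + V0 + 1, ?_⟩
  intro ι _ _ S₀ p hS₀ hp hpi hpK hN hR
  have hne : Nonempty ι := by
    have h1 := hR 1 (by have := Nat.le_of_dvd hM0 hM; omega) (Nat.coprime_one_left M)
    have h2 : 0 < ((univ.image p).filter fun q => q % M = 1).card :=
      lt_of_lt_of_le (Nat.mul_pos (by omega) (by omega)) h1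
    obtain ⟨x, hx⟩ := card_pos.1 h2
    obtain ⟨i, -, -⟩ := mem_image.1 (mem_filter.1 hx).1
    exact ⟨i⟩
  have hZP : ∀ u ∈ ZZ F, Po u ∧ u ∣ M := by
    intro u hu
    unfold Pool.Agent.N856.JL.ZZ at hu
    rw [mem_biUnion] at hu
    obtain ⟨i, -, hi⟩ := hu
    exact ⟨hF.po i u hi, hFM i u hi⟩
  have hZo : ZZ F ⊆ oM M := by
    intro u hu
    obtain ⟨h1, h2⟩ := hZP u hu
    unfold Pool.Agent.N916.AM.oM
    rw [mem_erase, Nat.mem_primeFactors]
    exact ⟨h1.2, h1.1, h2, hM0.ne'⟩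
  have hT : ∀ u ∈ S₀ ∪ ZZ F, Po u := by
    intro u hu
    rcases mem_union.1 hu with hu | hu
    · exact hS₀ u hu
    · exact (hZP u hu).1
  have hdz : ∀ q : ℕ, q.Coprime M → q ∉ ZZ F := by
    intro q hq hqZ
    have h1 := Nat.Coprime.eq_one_of_dvd hq (hZP q hqZ).2
    exact (hZP q hqZ).1.1.one_lt.ne' h1
  have hd : ∀ i, p i ∉ S₀ ∪ ZZ F := by
    intro i h
    rcases mem_union.1 h with h | h
    · exact (hp i).2.1 h
    · exact hdz _ (hp i).2.2 h
  have hdis : Disjoint S₀ (ZZ F) := by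
    rw [Finset.disjoint_left]
    intro v hv hvZ
    unfold Pool.Agent.N856.JL.ZZ at hvZ
    rw [mem_biUnion] at hvZ
    obtain ⟨i, -, hi⟩ := hvZ
    refine hK2 _ hpK i v hi ?_
    rw [Nat.dvd_mod_iff (hFM i v hi)]
    exact Dvd.dvd.mul_right (dvd_prod_of_mem _ hv) _
  have hpr : ∀ i, Po (p i) := fun i => (hp i).1
  -- the number of the primes in a class
  have hnum : ∀ a, a < M → a.Coprime M → ∀ (P : ι → Prop) [DecidablePred P],
      (∀ k, p k % M = a → P k) →
      K0 * Fintype.card (S₀ ∪ ZZ F : Finset ℕ) + V0 ≤ (univ.filter P).card := by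
    intro a ha hac P _ hP
    have h1 := hR a ha hac
    rw [Finset.filter_image, Finset.card_image_of_injective _ hpi] at h1
    have h2 : (univ.filter fun k => p k % M = a).card ≤ (univ.filter P).card :=
      card_le_card fun k hk => by
        rw [mem_filter] at hk ⊢
        exact ⟨hk.1, hP k hk.2⟩
    refine le_trans ?_ (h1.trans h2)
    rw [Fintype.card_coe]
    have h3 : (S₀ ∪ ZZ F).card ≤ S₀.card + z := by
      rw [hz]
      exact card_union_le _ _
    calc K0 * (S₀ ∪ ZZ F).card + V0 ≤ K0 * (S₀.card + z) + V0 :=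
          Nat.add_le_add_right (Nat.mul_le_mul_left _ h3) _
      _ ≤ (K0 * (z + 1) + V0 + 1) * (S₀.card + 1) := by
          have e : (K0 * (z + 1) + V0 + 1) * (S₀.card + 1) = K0 * (S₀.card + z) + V0 +
              (K0 * z * S₀.card + K0 + V0 * S₀.card + S₀.card + 1) := by ring
          rw [e]
          exact Nat.le_add_right _ _
  have hsumF : ∀ (x : ℕ) (r : ℕ → ZMod 2) (i : I), (∀ u ∈ oM M, nr u x = r u) →
      ∑ u ∈ F i, nr u x = ∑ u ∈ F i, r u := fun x r i h =>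
    sum_congr rfl fun u hu => h u (hZo (sub_ZZ F i hu))
  have hH : HypR K0 V0 (fun i : I => WW F S₀ i) (fun u : (S₀ ∪ ZZ F : Finset ℕ) => uu u)
      (fun i => uu (p i)) (fun u v : (S₀ ∪ ZZ F : Finset ℕ) => nr v u)
      (fun (u : (S₀ ∪ ZZ F : Finset ℕ)) l => nr (p l) u) := by
    constructor
    · intro i j
      obtain ⟨a, ha, hac, hx⟩ := cls hM hM0 (fun _ => 0) 1
      refine hnum a ha hac _ fun k hk => ?_
      obtain ⟨h1, h2⟩ := hx _ hk
      rw [la_add hpr hT hd hdis, hsumF _ _ i h1, hsumF _ _ j h1, h2]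
      simp
    · intro i j hij
      have hne' : F i ≠ F j := fun h => hij (hF.inj h)
      obtain ⟨u0, hu0⟩ : ∃ u0, ¬ (u0 ∈ F i ↔ u0 ∈ F j) := by
        by_contra hcon
        push Not at hcon
        exact hne' (Finset.ext hcon)
      obtain ⟨a, ha, hac, hx⟩ := cls hM hM0 (fun u => if u = u0 then 1 else 0) 0
      refine hnum a ha hac _ fun k hk => ?_
      obtain ⟨h1, h2⟩ := hx _ hk
      rw [la_add hpr hT hd hdis, hsumF _ _ i h1, hsumF _ _ j h1, Finset.sum_ite_eq',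
        Finset.sum_ite_eq']
      by_cases g1 : u0 ∈ F i <;> by_cases g2 : u0 ∈ F j
      · exact absurd ⟨fun _ => g2, fun _ => g1⟩ hu0
      · rw [if_pos g1, if_neg g2, add_zero]
      · rw [if_neg g1, if_pos g2, zero_add]
      · exact absurd ⟨fun h => absurd h g1, fun h => absurd h g2⟩ hu0
    · intro i
      unfold Pool.Agent.N588.JL.WW
      rw [sumW' (sub_T F S₀ i) (fun u => uu u), Finset.sum_union (Pool.Agent.N588.JL.disj hdis i)]
      have hd1 : Disjoint (S₀ ∪ univ.image p) (F i) := by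
        rw [Finset.disjoint_union_left]
        refine ⟨Pool.Agent.N588.JL.disj hdis i, ?_⟩
        rw [Finset.disjoint_left]
        intro x hx hx2
        obtain ⟨k, -, rfl⟩ := mem_image.1 hx
        exact hd k (mem_union_right _ (sub_ZZ F i hx2))
      have hd2 : Disjoint S₀ (univ.image p) := by
        rw [Finset.disjoint_left]
        intro x hx hx2
        obtain ⟨k, -, rfl⟩ := mem_image.1 hx2
        exact hd k (mem_union_left _ hx)
      have h1 := sum_uu ((S₀ ∪ univ.image p) ∪ F i) (by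
        intro x hx
        rcases mem_union.1 hx with hx | hx
        · rcases mem_union.1 hx with hx | hx
          · exact hS₀ x hx
          · obtain ⟨k, -, rfl⟩ := mem_image.1 hx
            exact hpr k
        · exact hF.po i x hx)
      rw [Finset.prod_union hd1, Finset.prod_union hd2, Finset.sum_union hd1, Finset.sum_union hd2,
        Finset.prod_image fun a _ b _ h => hpi h, Finset.sum_image fun a _ b _ h => hpi h] at h1
      have h2 := hK1 _ hpK i
      have h4M : (4 : ℕ) ∣ M := Dvd.dvd.trans (by norm_num) hM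
      rw [Nat.mul_mod, Nat.mod_mod_of_dvd _ h4M, ← Nat.mul_mod, h1] at h2
      have h3 : ∑ x ∈ S₀, uu x + ∑ x, uu (p x) + ∑ x ∈ F i, uu x ≠ 0 := by
        intro h0
        rw [if_pos h0] at h2
        omega
      have hz : ∀ x : ZMod 2, x ≠ 0 → x = 1 := by decide
      have h5 := hz _ h3
      rw [← h5]
      ring
    · intro u v huv
      have h3 := nr_recip (hT u u.2) (hT v v.2) (fun h => huv (Subtype.ext h))
      rw [← h3, add_comm]
    · intro w hw
      have hw' : ∃ u ∈ S₀ ∪ oM M, ez0 w u ≠ 0 := by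
        obtain ⟨u, hu⟩ := hw
        exact ⟨u, Finset.union_subset_union_right hZo u.2, by rw [ez0_coe]; exact hu⟩
      obtain ⟨x, hx, hx8, hx2⟩ := hN.2 (ez0 w) hw'
      obtain ⟨k, -, rfl⟩ := mem_image.1 hx
      refine ⟨k, ?_, fun h0 => hx2 ?_⟩
      · unfold Pool.Agent.N973.ND.uu
        rw [if_neg (by omega)]
      · have e1 : ∑ v ∈ S₀ ∪ ZZ F, ez0 w v * nr (p k) v = ∑ v ∈ S₀ ∪ oM M, ez0 w v * nr (p k) v :=
          sum_subset (Finset.union_subset_union_right hZo) fun x _ hx => by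
            unfold Pool.Agent.N588.JL.ez0
            rw [dif_neg hx, zero_mul]
        rw [← e1, ← Finset.sum_coe_sort (S₀ ∪ ZZ F)]
        rw [← h0]
        refine sum_congr rfl fun v _ => ?_
        rw [ez0_coe]
  have h2 := hL (S₀ ∪ ZZ F : Finset ℕ) ι (fun i : I => WW F S₀ i) _ _ _ _ hH
  refine ⟨fun α => ∀ i : I, GdR (WW F S₀ i) (fun u : (S₀ ∪ ZZ F : Finset ℕ) => uu u)
    (fun i => uu (p i)) (fun u v : (S₀ ∪ ZZ F : Finset ℕ) => nr v u)
    (fun (u : (S₀ ∪ ZZ F : Finset ℕ)) l => nr (p l) u) (ext (fun i => uu (p i)) α), ?_, ?_⟩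
  · intro q hqi hq
    have hqc : ∀ i, (q i).Coprime M := by
      intro i
      have h1 := (hp i).2.2
      rw [Nat.coprime_comm, Nat.Coprime, Nat.gcd_rec] at h1 ⊢
      rw [(hq i).2.2.1]
      exact h1
    have hqd : ∀ i, q i ∉ S₀ ∪ ZZ F := by
      intro i h
      rcases mem_union.1 h with h | h
      · exact (hq i).2.1 h
      · exact hdz _ (hqc i) h
    rw [gdJ_iff hqi (fun i => (hq i).1) hT hqd]
    have e1 : (fun i => uu (q i)) = fun i => uu (p i) :=
      funext fun i => uu_mod hM (hq i).2.2.1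
    have e2 : (fun (u : (S₀ ∪ ZZ F : Finset ℕ)) l => nr (q l) u) =
        fun (u : (S₀ ∪ ZZ F : Finset ℕ)) l => nr (p l) u := by
      funext u l
      refine nr_Bs hM (hq l).1 (hp l).1 (hqc l) (hp l).2.2 (hq l).2.2.1 (hq l).2.2.2 _ ?_
      unfold Pool.Agent.N916.AM.Bs
      rcases mem_union.1 u.2 with hu | hu
      · exact mem_union_left _ hu
      · exact mem_union_right _ (mem_erase.1 (hZo hu)).2
    rw [e1, e2]
    exact Iff.rfl
  · have e8 : ∀ n1 n2 : ℕ, n1 = n2 →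
        |(n2 : ℝ) / 2 ^ (prs ι).card - c2 ^ Fintype.card I| ≤ ε →
        |(n1 : ℝ) / 2 ^ (ps ι).card - eta ^ Fintype.card I| ≤ ε := by
      rintro n1 n2 rfl h
      exact h
    exact e8 _ _ (fcc fun x _ => Iff.rfl) h2

end Pool.Agent.N856.JM
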