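import Pool.Agent.N856.JM.Lah
import Pool.Agent.N856.JL.Tr

/-!
# JM: the joint law in arbitrary classes, for the integers
-/

set_option autoImplicit false
set_option linter.unusedVariables false

open scoped Classical

namespace Pool.Agent.N856.JM

open Finset Filter
open Pool.Agent.N969.P15 (Qc)
open Pool.Agent.N916.GB (Po Gd eta Gd_iff_Qc eta_bounds)
open Pool.Agent.N856.JL (Fx ZZ GdJ)

/-- **The joint law.** Let `c i` be different odd squarefree integers, and let a set of residues `K`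
modulo any `M > 0` be such that all the squarefree `n` of these classes are odd, prime to the `c i` and
`n c i ≡ 3` modulo `4`. Then the natural density of the `n` such that the class groups of all the fields
`ℚ(√(-n c i))` have no element of order four is `η ^ k`. -/
theorem law {I : Type} [Fintype I] {c : I → ℕ} (hinj : Function.Injective c)
    (hc : ∀ i, Squarefree (c i) ∧ c i % 2 = 1) {M : ℕ} (hM0 : 0 < M) {K : Finset ℕ}
    (ho : ∀ n, Squarefree n → n % M ∈ K → n % 2 = 1)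
    (hK : ∀ n, Squarefree n → n % M ∈ K → ∀ i, n.Coprime (c i) ∧ (n * c i) % 4 = 3)
    {n₀ : ℕ} (hn : Squarefree n₀) (hn₀ : n₀ % M ∈ K) :
    Tendsto (fun X : ℕ => (((Icc 1 X).filter fun n => (Squarefree n ∧ n % M ∈ K) ∧
      ∀ i, Qc (c i * n)).card : ℝ) /
      (((Icc 1 X).filter fun n => Squarefree n ∧ n % M ∈ K).card : ℝ)) atTop
      (nhds (eta ^ Fintype.card I)) := by
  set M' := 8 * (M * ∏ i, c i) with hM'
  have hP0 : 0 < ∏ i, c i := prod_pos fun i _ => Nat.pos_of_ne_zero (hc i).1.ne_zero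
  have hM'0 : 0 < M' := Nat.mul_pos (by norm_num) (Nat.mul_pos hM0 hP0)
  have h8 : 8 ∣ M' := Dvd.intro _ rfl
  have h4 : 4 ∣ M' := Dvd.dvd.trans (by norm_num) h8
  have h2 : 2 ∣ M' := Dvd.dvd.trans (by norm_num) h8
  have hMM : M ∣ M' := Dvd.dvd.mul_left (Dvd.intro _ rfl) 8
  set K' := (range M').filter fun a => ∃ n, Squarefree n ∧ n % M' = a ∧ n % M ∈ K with hK'
  have hmem : ∀ n, Squarefree n → (n % M' ∈ K' ↔ n % M ∈ K) := by
    intro n hn
    rw [hK', mem_filter, mem_range]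
    constructor
    · rintro ⟨-, n', -, h1, h2⟩
      rw [← Nat.mod_mod_of_dvd n hMM, ← h1, Nat.mod_mod_of_dvd n' hMM]
      exact h2
    · intro h
      exact ⟨Nat.mod_lt _ hM'0, n, hn, rfl, h⟩
  set F : I → Finset ℕ := fun i => (c i).primeFactors with hF
  have hprod : ∀ i, ∏ p ∈ F i, p = c i := fun i => Nat.prod_primeFactors_of_squarefree (hc i).1
  have hFx : Fx F := by
    refine ⟨fun i p hp => ⟨Nat.prime_of_mem_primeFactors hp, ?_⟩, fun i j hij => ?_⟩
    · rintro rfl
      have h1 := Nat.dvd_of_mem_primeFactors hp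
      have h2 := (hc i).2
      omega
    · refine hinj ?_
      rw [← hprod i, ← hprod j, hij]
  have hFM : ∀ i, ∀ u ∈ F i, u ∣ M' := fun i u hu =>
    ((Nat.dvd_of_mem_primeFactors hu).trans (dvd_prod_of_mem c (mem_univ i))).trans
      (Dvd.dvd.mul_left (Dvd.intro_left _ rfl) 8)
  have hKo : ∀ a ∈ K', a % 2 = 1 := by
    intro a ha
    obtain ⟨-, n, h5, h6, h7⟩ := mem_filter.1 ha
    have h9 := ho n h5 h7
    rw [← h6, Nat.mod_mod_of_dvd n h2]
    exact h9
  have hK1 : ∀ a ∈ K', ∀ i, (a * ∏ u ∈ F i, u) % 4 = 3 := by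
    intro a ha i
    obtain ⟨-, n, h5, h6, h7⟩ := mem_filter.1 ha
    rw [hprod i, Nat.mul_mod, ← h6, Nat.mod_mod_of_dvd n h4, ← Nat.mul_mod]
    exact (hK n h5 h7 i).2
  have hK2 : ∀ a ∈ K', ∀ i, ∀ u ∈ F i, ¬ u ∣ a := by
    intro a ha i u hu hua
    obtain ⟨-, n, h5, h6, h7⟩ := mem_filter.1 ha
    rw [← h6, Nat.dvd_mod_iff (hFM i u hu)] at hua
    have h9 := Nat.dvd_gcd hua (Nat.dvd_of_mem_primeFactors hu)
    rw [(hK n h5 h7 i).1] at h9
    exact (Nat.prime_of_mem_primeFactors hu).one_lt.ne' (Nat.dvd_one.1 h9)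
  have hL := lah hFx h8 hM'0 hFM hK1 hK2
  have hb := eta_bounds
  have h0 : (0 : ℝ) ≤ eta := by linarith [hb.1]
  have h1 : eta ≤ 1 := by linarith [hb.2]
  have hd := dens h8 hM'0 (pow_nonneg h0 _) (pow_le_one₀ h0 h1) hL hKo hn ((hmem n₀ hn).2 hn₀)
  refine hd.congr fun X => ?_
  refine congrArg₂ (fun a b : ℕ => (a : ℝ) / (b : ℝ)) (congrArg Finset.card ?_)
    (congrArg Finset.card ?_)
  · refine filter_congr fun n _ => ?_
    rw [and_assoc]
    refine and_congr_right fun h5 => ?_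
    rw [hmem n h5]
    refine and_congr_right fun h6 => ?_
    unfold GdJ
    refine forall_congr' fun i => ?_
    obtain ⟨h7, h9⟩ := hK n h5 h6 i
    have e : n.primeFactors ∪ F i = (c i * n).primeFactors := by
      rw [Nat.primeFactors_mul (hc i).1.ne_zero h5.ne_zero, union_comm]
    rw [e, Gd_iff_Qc ((Nat.squarefree_mul h7.symm).2 ⟨(hc i).1, h5⟩) (by rwa [mul_comm])]
  · refine filter_congr fun n _ => ?_
    refine and_congr_right fun h5 => ?_
    rw [hmem n h5]

end Pool.Agent.N856.JM
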