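import Pool.Agent.N916.AM.Asy

/-!
# JM (helper856): the machine AM of helper916 with a stronger condition on the labels

The same as `Pool/Agent/N916/AM`, except that the labels of the large primes `1` modulo `8` are supposed
to be not degenerate too. This is what the joint criteria need.
-/

set_option autoImplicit false
set_option linter.unusedVariables false

open scoped Classical

namespace Pool.Agent.N856.JM

open Finset
open Pool.Agent.Y703.CX (sm la jj XX eL zz kk S_SIE)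
open Pool.Agent.Y703.CQ (nr sg)
open Pool.Agent.N973.ND (uu)
open Pool.Agent.N916.GB (Po SA ps HB S_EQ S_BIL CntP S_ME8 S_HAL)
open Pool.Agent.N916.AM (Rich N8 oM)

/-- the labels of the large primes are not degenerate -/
def Nd (M : ℕ) (S₀ S₁ : Finset ℕ) : Prop :=
  Pool.Agent.N916.AM.Nd M S₀ S₁ ∧ N8 (oM M) S₀ S₁

/-- the hypothesis on the criterion for given `ε` and `V` -/
def LAV (M : ℕ) (K : Finset ℕ) (G : Finset ℕ → Prop) (c ε : ℝ) (V : ℕ) : Prop :=
  ∀ (ι : Type) [Fintype ι] [LinearOrder ι] (S₀ : Finset ℕ) (p : ι → ℕ),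
    (∀ v ∈ S₀, Po v) → (∀ i, Po (p i) ∧ p i ∉ S₀ ∧ (p i).Coprime M) → Function.Injective p →
    ((∏ v ∈ S₀, v) * ∏ i, p i) % M ∈ K → Nd M S₀ (univ.image p) → Rich M V S₀ (univ.image p) →
    ∃ Q : (ps ι → ZMod 2) → Prop,
      (∀ q : ι → ℕ, Function.Injective q → (∀ i, Po (q i) ∧ q i ∉ S₀ ∧ q i % M = p i % M ∧
          ∀ v ∈ S₀, nr (q i) v = nr (p i) v) →
        (G (S₀ ∪ univ.image q) ↔ Q fun e => nr (q e.1.1) (q e.1.2))) ∧
      |((univ.filter Q).card : ℝ) / 2 ^ (ps ι).card - c| ≤ ε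

/-- the hypothesis on the criterion -/
def LAH (M : ℕ) (K : Finset ℕ) (G : Finset ℕ → Prop) (c : ℝ) : Prop :=
  ∀ ε : ℝ, 0 < ε → ∃ V : ℕ, LAV M K G c ε V

end Pool.Agent.N856.JM
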